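import Mathlib

set_option autoImplicit false

namespace Pool.Agent.H.MP_ff3c98_co

open Equiv
open scoped Pointwise

variable {Ω : Type*}

lemma finC (P : Set (Perm Ω)) (A C : Set Ω) (hA : A.Finite) (hC : C.Finite)
    (hP : ∀ g ∈ P, ∀ g' ∈ P, (∀ a ∈ A, g a = g' a) → g = g') :
    {g | g ∈ P ∧ ∀ a ∈ A, g a ∈ C}.Finite := by
  have := hA.to_subtype
  have hfin : {f : A → Ω | ∀ a, f a ∈ C}.Finite := Set.Finite.pi' (fun _ => hC)
  refine Set.Finite.of_injOn (f := fun (g : Perm Ω) (a : A) => g a)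
    (t := {f : A → Ω | ∀ a, f a ∈ C}) (fun g hg (a : A) => hg.2 a a.2) ?_ hfin
  intro g hg g' hg' h
  exact hP g hg.1 g' hg'.1 (fun a ha => congrFun h ⟨a, ha⟩)

/-- separation lemma of P. M. Neumann -/
lemma sep (Γ : Subgroup (Perm Ω)) (C A : Set Ω) (hC : C.Finite) (hA : A.Finite)
    (hinf : ∀ c ∈ C, (MulAction.orbit Γ c).Infinite) : ∃ h ∈ Γ, ∀ c ∈ C, h c ∉ A := by
  classical
  by_contra hcon
  push Not at hcon
  have hch : ∀ p : Ω × Ω, ∃ k : Γ, (∃ h : Γ, h • p.1 = p.2) → k • p.1 = p.2 := by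
    intro p
    by_cases hp : ∃ h : Γ, h • p.1 = p.2
    · obtain ⟨h, hh⟩ := hp
      exact ⟨h, fun _ => hh⟩
    · exact ⟨1, fun h => absurd h hp⟩
  choose k hk using hch
  have hcov : ⋃ p ∈ (hC.toFinset ×ˢ hA.toFinset),
      k p • ((MulAction.stabilizer Γ p.1 : Subgroup Γ) : Set Γ) = Set.univ := by
    apply Set.eq_univ_of_forall
    intro h
    obtain ⟨c, hc, ha⟩ := hcon h h.2
    simp only [Set.mem_iUnion]
    refine ⟨(c, h • c), ?_, ?_⟩
    · simp only [Finset.mem_product, Set.Finite.mem_toFinset]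
      exact ⟨hc, ha⟩
    · rw [mem_leftCoset_iff]
      have := hk (c, h • c) ⟨h, rfl⟩
      simp only [SetLike.mem_coe, MulAction.mem_stabilizer_iff, mul_smul]
      rw [inv_smul_eq_iff]
      exact this.symm
  obtain ⟨p, hp, hfi⟩ := Subgroup.exists_finiteIndex_of_leftCoset_cover hcov
  simp only [Finset.mem_product, Set.Finite.mem_toFinset] at hp
  apply hinf p.1 hp.1
  have h1 := hfi.index_ne_zero
  rw [MulAction.index_stabilizer] at h1
  exact Set.finite_of_ncard_ne_zero h1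

lemma finSupp (Γ : Subgroup (Perm Ω)) (B : Set Ω) (hB : B.Finite)
    (hbase : ∀ g ∈ Γ, (∀ b ∈ B, g b = b) → g = 1) :
    {g | g ∈ Γ ∧ {x | g x ≠ x}.Finite}.Finite := by
  classical
  set O : Set Ω := ⋃ b ∈ {b | b ∈ B ∧ (MulAction.orbit Γ b).Finite}, MulAction.orbit Γ b with hO
  have hOf : O.Finite := Set.Finite.biUnion (hB.subset (fun b hb => hb.1)) (fun b hb => hb.2)
  have hOinv : ∀ g ∈ Γ, ∀ o ∈ O, g o ∈ O := by
    intro g hg o ho
    simp only [hO, Set.mem_iUnion] at ho ⊢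
    obtain ⟨b, hb, k, hk⟩ := ho
    refine ⟨b, hb, ⟨(⟨g, hg⟩ : Γ) * k, ?_⟩⟩
    simp only [mul_smul] at hk ⊢
    rw [hk]; rfl
  have key : ∀ g ∈ Γ, {x | g x ≠ x}.Finite → (∀ o ∈ O, g o = o) → g = 1 := by
    intro g hg hf hfix
    obtain ⟨h, hh, hsep⟩ := sep Γ {b | b ∈ B ∧ (MulAction.orbit Γ b).Infinite} {x | g x ≠ x}
      (hB.subset (fun b hb => hb.1)) hf (fun c hc => hc.2)
    have : h⁻¹ * g * h = 1 := by
      apply hbase _ (Γ.mul_mem (Γ.mul_mem (Γ.inv_mem hh) hg) hh)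
      intro b hb
      have : g (h b) = h b := by
        by_cases hbo : (MulAction.orbit Γ b).Finite
        · apply hfix
          simp only [hO, Set.mem_iUnion]
          exact ⟨b, ⟨hb, hbo⟩, ⟨(⟨h, hh⟩ : Γ), rfl⟩⟩
        · have := hsep b ⟨hb, hbo⟩
          simpa using this
      simp [Perm.mul_apply, this]
    have h2 : g = h * (h⁻¹ * g * h) * h⁻¹ := by group
    rw [h2, this]; simp
  have := finC {g | g ∈ Γ ∧ {x | g x ≠ x}.Finite} O O hOf hOf (by
    intro g hg g' hg' hagree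
    have : g⁻¹ * g' = 1 := by
      apply key _ (Γ.mul_mem (Γ.inv_mem hg.1) hg'.1)
      · apply (hg.2.union hg'.2).subset
        intro x hx
        by_contra hn
        simp only [Set.mem_union, Set.mem_ofPred_eq, not_or, not_not] at hn
        apply hx
        rw [Perm.mul_apply, hn.2, Perm.inv_eq_iff_eq, hn.1]
      · intro o ho
        rw [Perm.mul_apply, Perm.inv_eq_iff_eq, hagree o ho]
    exact inv_mul_eq_one.mp this)
  refine this.subset ?_
  intro g hg
  exact ⟨hg, fun o ho => hOinv g hg.1 o ho⟩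

lemma base_inj (Γ : Subgroup (Perm Ω)) (A : Set Ω)
    (hbase : ∀ g ∈ Γ, (∀ b ∈ A, g b = b) → g = 1) :
    ∀ g ∈ (Γ : Set (Perm Ω)), ∀ g' ∈ (Γ : Set (Perm Ω)), (∀ a ∈ A, g a = g' a) → g = g' := by
  intro g hg g' hg' h
  have : g⁻¹ * g' = 1 := by
    apply hbase _ (Γ.mul_mem (Γ.inv_mem hg) hg')
    intro o ho
    rw [Perm.mul_apply, Perm.inv_eq_iff_eq, h o ho]
  exact inv_mul_eq_one.mp this

theorem inf_main (Γ : Subgroup (Perm Ω)) (B : Set Ω) (hB : B.Finite)
    (hbase : ∀ g ∈ Γ, (∀ b ∈ B, g b = b) → g = 1) (R : Set Ω)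
    (hR : ∀ g ∈ Γ, (∀ x, g x ∈ R ↔ x ∈ R) → g = 1) :
    ∃ S : Set Ω, S.Finite ∧ ∀ g ∈ Γ, (∀ x, g x ∈ S ↔ x ∈ S) → g = 1 := by
  classical
  have hF := finSupp Γ B hB hbase
  set U : Set Ω := ⋃ g ∈ {g | g ∈ Γ ∧ {x | g x ≠ x}.Finite}, {x | g x ≠ x} with hU
  have hUf : U.Finite := Set.Finite.biUnion hF (fun g hg => hg.2)
  have hUinv1 : ∀ h ∈ Γ, ∀ x ∈ U, h x ∈ U := by
    intro h hh x hx
    simp only [hU, Set.mem_iUnion] at hx ⊢
    obtain ⟨g, hg, hx⟩ := hx
    refine ⟨h * g * h⁻¹, ⟨Γ.mul_mem (Γ.mul_mem hh hg.1) (Γ.inv_mem hh), ?_⟩, ?_⟩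
    · apply (hg.2.image h).subset
      intro y hy
      refine ⟨h⁻¹ y, ?_, by simp⟩
      intro he
      apply hy
      rw [Perm.mul_apply, Perm.mul_apply, he]; simp
    · simpa [Perm.mul_apply] using hx
  have hUinv : ∀ h ∈ Γ, ∀ x, h x ∈ U ↔ x ∈ U := by
    intro h hh x
    refine ⟨fun hx => ?_, hUinv1 h hh x⟩
    simpa using hUinv1 h⁻¹ (Γ.inv_mem hh) _ hx
  -- bases avoiding a given point
  have havoid : ∀ s, ∃ A : Set Ω, A.Finite ∧ (∀ a ∈ A, a ∉ U) ∧ (s ∉ U → s ∉ A ∧
      ∀ g ∈ Γ, (∀ a ∈ A ∪ U, g a = a) → g = 1) := by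
    intro s
    by_cases hs : s ∈ U
    · exact ⟨∅, Set.finite_empty, by simp, fun h => absurd hs h⟩
    by_cases hk : ∃ k ∈ Γ, (∀ b ∈ B, b ≠ s → k b = b) ∧ k s ≠ s
    · obtain ⟨k, hk, hfix, hks⟩ := hk
      refine ⟨{b | b ∈ B ∧ b ∉ U ∧ b ≠ s} ∪ {k s}, (hB.subset (fun b hb => hb.1)).union
        (Set.finite_singleton _), ?_, fun _ => ⟨?_, ?_⟩⟩
      · rintro a (ha | ha)
        · exact ha.2.1
        · rw [Set.mem_singleton_iff.mp ha, hUinv k hk]; exact hs
      · rintro (h | h)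
        · exact h.2.2 rfl
        · exact hks (Set.mem_singleton_iff.mp h).symm
      · intro g hg hgf
        have : k⁻¹ * g * k = 1 := by
          apply hbase _ (Γ.mul_mem (Γ.mul_mem (Γ.inv_mem hk) hg) hk)
          intro b hb
          have : g (k b) = k b := by
            by_cases hbs : b = s
            · apply hgf; left; right; rw [hbs]; rfl
            · rw [hfix b hb hbs]
              by_cases hbU : b ∈ U
              · apply hgf; right; exact hbU
              · apply hgf; left; left; exact ⟨hb, hbU, hbs⟩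
          simp [Perm.mul_apply, this]
        have h2 : g = k * (k⁻¹ * g * k) * k⁻¹ := by group
        rw [h2, this]; simp
    · push Not at hk
      refine ⟨{b | b ∈ B ∧ b ∉ U ∧ b ≠ s}, hB.subset (fun b hb => hb.1), fun a ha => ha.2.1,
        fun _ => ⟨fun h => h.2.2 rfl, ?_⟩⟩
      intro g hg hgf
      have h1 : ∀ b ∈ B, b ≠ s → g b = b := by
        intro b hb hbs
        by_cases hbU : b ∈ U
        · apply hgf; right; exact hbU
        · apply hgf; left; exact ⟨hb, hbU, hbs⟩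
      apply hbase g hg
      intro b hb
      by_cases hbs : b = s
      · rw [hbs]; exact hk g hg h1
      · exact h1 b hb hbs
  choose A hAf hAU hA using havoid
  set S1 : Set Ω := {b | b ∈ B ∧ b ∉ U} ∪ ⋃ b ∈ B, A b with hS1
  have hS1f : S1.Finite := (hB.subset (fun b hb => hb.1)).union (hB.biUnion (fun b _ => hAf b))
  have hS1U : ∀ x ∈ S1, x ∉ U := by
    rintro x (hx | hx)
    · exact hx.2
    · simp only [Set.mem_iUnion] at hx
      obtain ⟨b, _, hx⟩ := hx
      exact hAU b x hx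
  have hrob : ∀ s, s ∉ U → ∀ g ∈ Γ, (∀ a ∈ (S1 \ {s}) ∪ U, g a = a) → g = 1 := by
    intro s hs g hg hgf
    by_cases hsB : s ∈ B
    · apply (hA s hs).2 g hg
      rintro a (ha | ha)
      · apply hgf; left
        refine ⟨Or.inr ?_, ?_⟩
        · simp only [Set.mem_iUnion]; exact ⟨s, hsB, ha⟩
        · intro h; rw [Set.mem_singleton_iff.mp h] at ha; exact (hA s hs).1 ha
      · apply hgf; right; exact ha
    · apply hbase g hg
      intro b hb
      by_cases hbU : b ∈ U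
      · apply hgf; right; exact hbU
      · apply hgf; left
        refine ⟨Or.inl ⟨hb, hbU⟩, ?_⟩
        intro h; rw [Set.mem_singleton_iff.mp h] at hb; exact hsB hb
  -- one step
  have hstep : ∀ S : Set Ω, S.Finite → S1 ⊆ S → (∀ x ∈ S, x ∉ U) → ∀ h : Perm Ω,
      {x | h x ≠ x}.Infinite → ∃ x, x ∉ U ∧ h x ≠ x ∧
        ∀ g ∈ Γ, (∀ y, g y ∈ insert x S ↔ y ∈ insert x S) → g x = x ∧ ∀ y, g y ∈ S ↔ y ∈ S := by
    intro S hSf hS1S hSU h hinf
    have hbad : (⋃ s ∈ S, (fun g : Perm Ω => g s) ''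
        {g | g ∈ (Γ : Set (Perm Ω)) ∧ ∀ a ∈ (S1 \ {s}) ∪ U, g a ∈ S ∪ U}).Finite := by
      apply hSf.biUnion
      intro s hs
      apply Set.Finite.image
      exact finC _ _ _ ((hS1f.subset Set.sdiff_subset).union hUf) (hSf.union hUf)
        (base_inj Γ _ (hrob s (hSU s hs)))
    obtain ⟨x, hx, hxn⟩ := hinf.exists_notMem_finite ((hUf.union hSf).union hbad)
    simp only [Set.mem_union, not_or] at hxn
    refine ⟨x, hxn.1.1, hx, ?_⟩
    intro g hg hst
    have hgx : g x = x := by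
      by_contra hne
      apply hxn.2
      have hs : g⁻¹ x ∈ S := by
        have : g⁻¹ x ∈ insert x S := by
          rw [← hst]; simp
        rcases this with h1 | h1
        · exfalso; apply hne
          rw [Perm.inv_eq_iff_eq] at h1
          exact h1.symm
        · exact h1
      simp only [Set.mem_iUnion]
      refine ⟨g⁻¹ x, hs, g, ⟨hg, ?_⟩, by simp⟩
      rintro a (ha | ha)
      · left
        have : g a ∈ insert x S := (hst a).mpr (Or.inr (hS1S ha.1))
        rcases this with h1 | h1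
        · exfalso; apply ha.2
          rw [Set.mem_singleton_iff, ← h1]; simp
        · exact h1
      · right; exact hUinv1 g hg a ha
    refine ⟨hgx, fun y => ?_⟩
    by_cases hy : y = x
    · rw [hy, hgx]
    · have h1 : g y ≠ x := by
        intro h2; apply hy; apply g.injective; rw [h2, hgx]
      have := hst y
      simpa [hy, h1] using this
  have hind : ∀ L : Finset (Perm Ω), ∃ S : Set Ω, S.Finite ∧ S1 ⊆ S ∧ (∀ x ∈ S, x ∉ U) ∧
      ∀ g ∈ Γ, (∀ y, g y ∈ S ↔ y ∈ S) → (∀ y, g y ∈ S1 ↔ y ∈ S1) ∧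
        (g ∈ L → {x | g x ≠ x}.Finite) := by
    intro L
    induction L using Finset.induction_on with
    | empty => exact ⟨S1, hS1f, subset_rfl, hS1U, fun g _ h => ⟨h, by simp⟩⟩
    | insert h L _ ih =>
      obtain ⟨S, hSf, h1, h2, h3⟩ := ih
      by_cases hh : {x | h x ≠ x}.Finite
      · refine ⟨S, hSf, h1, h2, fun g hg hst => ⟨(h3 g hg hst).1, fun hm => ?_⟩⟩
        rcases Finset.mem_insert.mp hm with rfl | hm
        · exact hh
        · exact (h3 g hg hst).2 hm
      · obtain ⟨x, hxU, hx, hst⟩ := hstep S hSf h1 h2 h hh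
        refine ⟨insert x S, hSf.insert x, h1.trans (Set.subset_insert _ _), ?_, ?_⟩
        · rintro y (rfl | hy)
          · exact hxU
          · exact h2 y hy
        · intro g hg hs
          obtain ⟨e1, e2⟩ := hst g hg hs
          refine ⟨(h3 g hg e2).1, fun hm => ?_⟩
          rcases Finset.mem_insert.mp hm with rfl | hm
          · exact absurd e1 hx
          · exact (h3 g hg e2).2 hm
  have hL : {g | g ∈ (Γ : Set (Perm Ω)) ∧ ∀ a ∈ B, g a ∈ S1 ∪ U}.Finite :=
    finC _ _ _ hB (hS1f.union hUf) (base_inj Γ _ hbase)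
  obtain ⟨X, hXf, -, hXU, hX⟩ := hind hL.toFinset
  refine ⟨X ∪ (R ∩ U), hXf.union (hUf.subset Set.inter_subset_right), ?_⟩
  intro g hg hst
  have hXst : ∀ y, g y ∈ X ↔ y ∈ X := by
    intro y
    have h1 := hst y
    have h2 := hUinv g hg y
    have h3 := hXU y
    have h4 := hXU (g y)
    simp only [Set.mem_union, Set.mem_inter_iff] at h1
    tauto
  obtain ⟨e1, e2⟩ := hX g hg hXst
  have hfin : {x | g x ≠ x}.Finite := by
    apply e2
    rw [Set.Finite.mem_toFinset]
    refine ⟨hg, fun a ha => ?_⟩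
    by_cases haU : a ∈ U
    · right; exact hUinv1 g hg a haU
    · left; exact (e1 a).mpr (Or.inl ⟨ha, haU⟩)
  apply hR g hg
  intro y
  by_cases hy : g y = y
  · rw [hy]
  · have hyU : y ∈ U := by
      simp only [hU, Set.mem_iUnion]
      exact ⟨g, ⟨hg, hfin⟩, hy⟩
    have h1 := hst y
    have h2 := hUinv g hg y
    have h3 := hXU y
    have h4 := hXU (g y)
    simp only [Set.mem_union, Set.mem_inter_iff] at h1
    tauto

theorem fin_main (d : ℕ) : ∃ C : ℕ, ∀ (V : Type) (Γ : Subgroup (Perm V)) (b : Fin d → V)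
    (R : Set V), (∀ g ∈ Γ, (∀ j, g (b j) = b j) → g = 1) →
    (∀ g ∈ Γ, (∀ x, g x ∈ R ↔ x ∈ R) → g = 1) →
    ∃ S : Finset V, S.card ≤ C ∧ ∀ g ∈ Γ, (∀ x, g x ∈ S ↔ x ∈ S) → g = 1 := by
  classical
  by_contra hcon
  push Not at hcon
  choose V Γ b R hb hR hS using hcon
  have hne : ∀ i, ∀ g : Perm (V i), g ≠ 1 → ∃ x, g x ≠ x := by
    intro i g hg
    by_contra h
    push Not at h
    exact hg (Equiv.ext h)
  have hNE : ∀ i, Nonempty (V i) := by
    intro i
    obtain ⟨g, -, -, hg⟩ := hS i ∅ (by simp)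
    obtain ⟨x, -⟩ := hne i g hg
    exact ⟨x⟩
  set 𝒰 : Ultrafilter ℕ := Filter.hyperfilter ℕ with h𝒰
  let st : Setoid (∀ i, V i) := Filter.productSetoid (𝒰 : Filter ℕ) V
  have hq : ∀ x y : ∀ i, V i, Quotient.mk st x = Quotient.mk st y ↔ ∀ᶠ i in (𝒰 : Filter ℕ), x i = y i := by
    intro x y
    rw [Quotient.eq]; rfl
  have hsk : ∀ p : ∀ i, V i → Prop, (∀ᶠ i in (𝒰 : Filter ℕ), ∃ y, p i y) →
      ∃ x : ∀ i, V i, ∀ᶠ i in (𝒰 : Filter ℕ), p i (x i) := by
    intro p hp
    have : ∀ i, ∃ y : V i, (∃ y, p i y) → p i y := by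
      intro i
      by_cases h : ∃ y, p i y
      · obtain ⟨y, hy⟩ := h
        exact ⟨y, fun _ => hy⟩
      · exact ⟨(hNE i).some, fun h' => absurd h' h⟩
    choose x hx using this
    exact ⟨x, hp.mono (fun i hi => hx i hi)⟩
  have hlift : ∀ g : ∀ i, Perm (V i), ∃ σ : Perm (Quotient st),
      ∀ x, σ (Quotient.mk st x) = Quotient.mk st (fun i => g i (x i)) := by
    intro g
    have hm : ∀ g : ∀ i, Perm (V i), ∀ x y : ∀ i, V i, st x y →
        st (fun i => g i (x i)) (fun i => g i (y i)) := by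
      intro g x y h
      have h' : ∀ᶠ i in (𝒰 : Filter ℕ), x i = y i := h
      exact (h'.mono (fun i hi => by rw [hi]) : ∀ᶠ i in (𝒰 : Filter ℕ), g i (x i) = g i (y i))
    refine ⟨⟨Quotient.map' (s₁ := st) (s₂ := st) (fun x i => g i (x i)) (hm g),
      Quotient.map' (s₁ := st) (s₂ := st) (fun x i => (g i)⁻¹ (x i)) (hm (fun i => (g i)⁻¹)), ?_, ?_⟩, fun x => rfl⟩
    · intro q
      induction q using Quotient.inductionOn with
      | h x => exact (hq _ _).mpr (Filter.Eventually.of_forall (fun i => by simp))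
    · intro q
      induction q using Quotient.inductionOn with
      | h x => exact (hq _ _).mpr (Filter.Eventually.of_forall (fun i => by simp))
  let G : Subgroup (Perm (Quotient st)) :=
    { carrier := {σ | ∃ g : ∀ i, Perm (V i), (∀ i, g i ∈ Γ i) ∧
        ∀ x, σ (Quotient.mk st x) = Quotient.mk st (fun i => g i (x i))}
      mul_mem' := by
        rintro σ τ ⟨g, hg, h1⟩ ⟨k, hk, h2⟩
        refine ⟨fun i => g i * k i, fun i => (Γ i).mul_mem (hg i) (hk i), fun x => ?_⟩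
        rw [Perm.mul_apply, h2, h1]; rfl
      one_mem' := ⟨fun _ => 1, fun i => (Γ i).one_mem, fun x => rfl⟩
      inv_mem' := by
        rintro σ ⟨g, hg, h1⟩
        refine ⟨fun i => (g i)⁻¹, fun i => (Γ i).inv_mem (hg i), fun x => ?_⟩
        rw [Perm.inv_eq_iff_eq, h1]
        congr 1
        funext i
        simp }
  have htriv : ∀ (σ : Perm (Quotient st)) (g : ∀ i, Perm (V i)),
      (∀ x, σ (Quotient.mk st x) = Quotient.mk st (fun i => g i (x i))) →
      (σ = 1 ↔ ∀ᶠ i in (𝒰 : Filter ℕ), g i = 1) := by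
    intro σ g h
    constructor
    · intro h1
      by_contra hn
      rw [← Ultrafilter.eventually_not] at hn
      obtain ⟨x, hx⟩ := hsk (fun i y => g i y ≠ y) (hn.mono (fun i hi => hne i _ hi))
      have h2 := h x
      rw [h1, Perm.one_apply, hq] at h2
      obtain ⟨i, hi1, hi2⟩ := (hx.and h2).exists
      exact hi1 hi2.symm
    · intro h1
      ext q
      induction q using Quotient.inductionOn with
      | h x =>
        rw [h x, Perm.one_apply, hq]
        exact h1.mono (fun i hi => by rw [hi]; rfl)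
  let R' : Set (Quotient st) := {q | ∃ x, q = Quotient.mk st x ∧ ∀ᶠ i in (𝒰 : Filter ℕ), x i ∈ R i}
  have hR' : ∀ x, Quotient.mk st x ∈ R' ↔ ∀ᶠ i in (𝒰 : Filter ℕ), x i ∈ R i := by
    intro x
    refine ⟨?_, fun h => ⟨x, rfl, h⟩⟩
    rintro ⟨y, h1, h2⟩
    rw [hq] at h1
    exact (h1.and h2).mono (fun i hi => by rw [hi.1]; exact hi.2)
  obtain ⟨S, hSf, hSS⟩ := inf_main G (Set.range (fun j => Quotient.mk st (fun i => b i j)))
    (Set.finite_range _) (by
      rintro σ ⟨g, hg, h1⟩ hfix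
      rw [htriv σ g h1]
      have : ∀ᶠ i in (𝒰 : Filter ℕ), ∀ j, g i (b i j) = b i j := by
        rw [Filter.eventually_all]
        intro j
        have := hfix _ ⟨j, rfl⟩
        rw [h1, hq] at this
        exact this
      exact this.mono (fun i hi => hb i _ (hg i) hi)) R' (by
      rintro σ ⟨g, hg, h1⟩ hst
      rw [htriv σ g h1]
      have : ∀ᶠ i in (𝒰 : Filter ℕ), ∀ y, g i y ∈ R i ↔ y ∈ R i := by
        by_contra hn
        rw [← Ultrafilter.eventually_not] at hn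
        obtain ⟨x, hx⟩ := hsk (fun i y => ¬ (g i y ∈ R i ↔ y ∈ R i))
          (hn.mono (fun i hi => by simpa using hi))
        have h2 := hst (Quotient.mk st x)
        rw [h1, hR', hR'] at h2
        rcases 𝒰.em (fun i => x i ∈ R i) with h3 | h3
        · obtain ⟨i, hi1, hi2, hi3⟩ := (hx.and (h3.and (h2.mpr h3))).exists
          exact hi1 ⟨fun _ => hi2, fun _ => hi3⟩
        · have h4 : ∀ᶠ i in (𝒰 : Filter ℕ), ¬ g i (x i) ∈ R i := by
            rw [Ultrafilter.eventually_not] at h3 ⊢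
            exact fun h => h3 (h2.mp h)
          obtain ⟨i, hi1, hi2, hi3⟩ := (hx.and (h3.and h4)).exists
          exact hi1 ⟨fun h => absurd h hi3, fun h => absurd h hi2⟩
      exact this.mono (fun i hi => hR i _ (hg i) hi))
  let T : ∀ i, Finset (V i) := fun i => hSf.toFinset.image (fun q => q.out i)
  have hT : ∀ x, Quotient.mk st x ∈ S ↔ ∀ᶠ i in (𝒰 : Filter ℕ), x i ∈ T i := by
    intro x
    constructor
    · intro hx
      have : Quotient.mk st (Quotient.mk st x).out = Quotient.mk st x := Quotient.out_eq _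
      rw [hq] at this
      refine this.mono (fun i hi => ?_)
      simp only [T, Finset.mem_image, Set.Finite.mem_toFinset]
      exact ⟨_, hx, hi⟩
    · intro hx
      have : ∀ᶠ i in (𝒰 : Filter ℕ), ∃ q ∈ S, q.out i = x i := by
        refine hx.mono (fun i hi => ?_)
        simpa only [T, Finset.mem_image, Set.Finite.mem_toFinset] using hi
      rw [Ultrafilter.eventually_exists_mem_iff hSf] at this
      obtain ⟨q, hqS, h2⟩ := this
      rw [← hq, Quotient.out_eq] at h2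
      rw [← h2]; exact hqS
  have hg : ∀ i, ∃ g ∈ Γ i, (∀ x, g x ∈ T i ↔ x ∈ T i) ∧ (hSf.toFinset.card ≤ i → g ≠ 1) := by
    intro i
    by_cases hi : hSf.toFinset.card ≤ i
    · obtain ⟨g, h1, h2, h3⟩ := hS i (T i) (Finset.card_image_le.trans hi)
      exact ⟨g, h1, h2, fun _ => h3⟩
    · exact ⟨1, (Γ i).one_mem, fun x => Iff.rfl, fun h => absurd h hi⟩
  choose g hg1 hg2 hg3 using hg
  obtain ⟨σ, hσ⟩ := hlift g
  have h1 : σ = 1 := by
    apply hSS σ ⟨g, hg1, hσ⟩
    intro q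
    induction q using Quotient.inductionOn with
    | h x =>
      rw [hσ, hT, hT]
      simp only [hg2]
  rw [htriv σ g hσ] at h1
  have h2 : ∀ᶠ i in (𝒰 : Filter ℕ), hSf.toFinset.card ≤ i :=
    Nat.hyperfilter_le_atTop (Filter.eventually_ge_atTop _)
  obtain ⟨i, hi1, hi2⟩ := (h1.and h2).exists
  exact hg3 i hi2 hi1

end Pool.Agent.H.MP_ff3c98_co
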